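import Mathlib

/-!
# Equal degrees and paths of length three: the count around a vertex of maximum degree
-/

set_option autoImplicit false

namespace Pool.Agent.U542.EqDeg

open Finset

/-- distinct natural numbers at most `D` have a small sum -/
theorem sum_inj_le {V : Type*} [DecidableEq V] (d : V → ℕ) (D : ℤ) (S : Finset V)
    (hinj : ∀ a ∈ S, ∀ b ∈ S, d a = d b → a = b) (hD : ∀ a ∈ S, (d a : ℤ) ≤ D) :
    2 * ∑ a ∈ S, (d a : ℤ) ≤ 2 * (S.card : ℤ) * D - (S.card : ℤ) * ((S.card : ℤ) - 1) := by
  induction' hn : S.card with n ih generalizing S D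
  · rw [Finset.card_eq_zero] at hn
    subst hn
    simp
  · have hne : S.Nonempty := by
      rw [← Finset.card_pos]; omega
    obtain ⟨m, hm, hmax⟩ := Finset.exists_max_image S d hne
    have h1 := ih (D := D - 1) (S := S.erase m)
      (fun a ha b hb h => hinj a (mem_of_mem_erase ha) b (mem_of_mem_erase hb) h)
      (by
        intro a ha
        have ha' := mem_of_mem_erase ha
        have hne : a ≠ m := ne_of_mem_erase ha
        have h2 := hmax a ha'
        have h3 : d a ≠ d m := fun h => hne (hinj a ha' m hm h)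
        have h4 := hD m hm
        have : d a + 1 ≤ d m := by omega
        have : (d a : ℤ) + 1 ≤ d m := by exact_mod_cast this
        linarith)
      (by rw [card_erase_of_mem hm]; omega)
    have h5 := Finset.add_sum_erase S (fun a => (d a : ℤ)) hm
    have h6 := hD m hm
    have h7 : ((n + 1 : ℕ) : ℤ) = n + 1 := by push_cast; ring
    rw [h7]
    nlinarith

variable {V : Type*} [Fintype V] [DecidableEq V] (G : SimpleGraph V) [DecidableRel G.Adj]

/-- no two distinct vertices of equal degree are joined by a path of length three -/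
def Bad : Prop := ∀ a b c e : V, G.Adj a b → G.Adj b c → G.Adj c e → a ≠ c → b ≠ e → a ≠ e →
  G.degree a ≠ G.degree e

/-- the neighbours of `u` whose degree is unique among the neighbours of `u` -/
def PP (u : V) : Finset V :=
  (G.neighborFinset u).filter (fun v => ∀ w ∈ G.neighborFinset u, G.degree w = G.degree v → w = v)

/-- the other neighbours -/
def QQ (u : V) : Finset V :=
  (G.neighborFinset u).filter
    (fun v => ¬ ∀ w ∈ G.neighborFinset u, G.degree w = G.degree v → w = v)

/-- the vertices not adjacent to `u` whose degree does not occur among the neighbours of `u` -/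
def R1 (u : V) : Finset V :=
  (insert u (G.neighborFinset u))ᶜ.filter (fun y => ∀ w ∈ G.neighborFinset u, G.degree w ≠ G.degree y)

/-- the other vertices not adjacent to `u` -/
def R0 (u : V) : Finset V :=
  (insert u (G.neighborFinset u))ᶜ.filter
    (fun y => ¬ ∀ w ∈ G.neighborFinset u, G.degree w ≠ G.degree y)

theorem card_PQ (u : V) : (PP G u).card + (QQ G u).card = G.degree u := by
  unfold PP QQ
  rw [Finset.card_filter_add_card_filter_not, G.card_neighborFinset_eq_degree]

theorem card_R (u : V) : (R1 G u).card + (R0 G u).card + G.degree u + 1 = Fintype.card V := by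
  unfold R1 R0
  rw [Finset.card_filter_add_card_filter_not, Finset.card_compl, Finset.card_insert_of_notMem,
    G.card_neighborFinset_eq_degree]
  · have := G.degree_lt_card_verts u
    omega
  · simp

theorem sum_split (u : V) (f : V → ℤ) :
    ∑ v, f v = f u + ∑ v ∈ PP G u, f v + ∑ v ∈ QQ G u, f v + ∑ v ∈ R1 G u, f v +
      ∑ v ∈ R0 G u, f v := by
  have h1 : ∑ v ∈ PP G u, f v + ∑ v ∈ QQ G u, f v = ∑ v ∈ G.neighborFinset u, f v := by
    unfold PP QQ
    exact Finset.sum_filter_add_sum_filter_not _ _ _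
  have h2 : ∑ v ∈ R1 G u, f v + ∑ v ∈ R0 G u, f v =
      ∑ v ∈ (insert u (G.neighborFinset u))ᶜ, f v := by
    unfold R1 R0
    exact Finset.sum_filter_add_sum_filter_not _ _ _
  have h3 : ∑ v ∈ insert u (G.neighborFinset u), f v = f u + ∑ v ∈ G.neighborFinset u, f v :=
    Finset.sum_insert (by simp)
  have h4 := Finset.sum_add_sum_compl (insert u (G.neighborFinset u)) f
  linarith

theorem mem_PP {u v : V} : v ∈ PP G u ↔ G.Adj u v ∧ ∀ w, G.Adj u w → G.degree w = G.degree v → w = v := by
  simp [PP]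

theorem mem_QQ {u v : V} : v ∈ QQ G u ↔ G.Adj u v ∧ ∃ w, G.Adj u w ∧ G.degree w = G.degree v ∧ w ≠ v := by
  simp [QQ]

theorem mem_R1 {u y : V} : y ∈ R1 G u ↔ (y ≠ u ∧ ¬ G.Adj u y) ∧ ∀ w, G.Adj u w → G.degree w ≠ G.degree y := by
  simp [R1]

theorem mem_R0 {u y : V} : y ∈ R0 G u ↔ (y ≠ u ∧ ¬ G.Adj u y) ∧ ∃ w, G.Adj u w ∧ G.degree w = G.degree y := by
  simp [R0]

variable {G}

/-- two adjacent neighbours of `u`: the degree of the second one occurs at no third neighbour -/
theorem adj_in (hB : Bad G) {u v w w' : V} (hv : G.Adj u v) (hvw : G.Adj v w)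
    (hw' : G.Adj u w') (h1 : w' ≠ v) (h2 : w' ≠ w) (huw : u ≠ w) : G.degree w' ≠ G.degree w :=
  hB w' u v w hw'.symm hv hvw h1 huw h2

/-- the non-neighbours in `Q`'s neighbourhoods -/
theorem Q_nb (hB : Bad G) {u v : V} (hv : v ∈ QQ G u) :
    (G.neighborFinset v ⊆ insert u (R1 G u)) ∨
    ∃ w, G.Adj u w ∧ w ≠ v ∧ G.degree w = G.degree v ∧
      (∀ w', G.Adj u w' → G.degree w' = G.degree v → w' = v ∨ w' = w) ∧
      G.neighborFinset v ⊆ insert u (insert w (R1 G u)) := by
  rw [mem_QQ] at hv
  obtain ⟨huv, w, huw, hwv, hne⟩ := hv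
  -- neighbours of v outside N[u] are in R1
  have hout : ∀ y, G.Adj v y → y ≠ u → ¬ G.Adj u y → y ∈ R1 G u := by
    intro y hy hyu hn
    rw [mem_R1]
    refine ⟨⟨hyu, hn⟩, ?_⟩
    intro x hx hxy
    by_cases hxv : x = v
    · subst hxv
      -- then w has the same degree
      exact hB w u x y huw.symm huv hy hne (Ne.symm hyu) (fun h => hn (h ▸ huw))
        (hwv.trans hxy)
    · exact hB x u v y hx.symm huv hy hxv (Ne.symm hyu) (fun h => hn (h ▸ hx)) hxy
  -- neighbours of v inside N(u) are equal to w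
  have hin : ∀ x, G.Adj v x → G.Adj u x → x = w := by
    intro x hvx hux
    by_contra hxw
    -- path w - u - x - v, equal degrees
    exact hB w u x v huw.symm hux hvx.symm (Ne.symm hxw) huv.ne hne hwv
  by_cases hadj : G.Adj v w
  · right
    refine ⟨w, huw, hne, hwv, ?_, ?_⟩
    · intro w' hw' hd
      by_contra hcon
      push Not at hcon
      -- w' - u - w - v
      exact hB w' u w v hw'.symm huw hadj.symm hcon.2 huv.ne hcon.1 hd
    · intro x hx
      rw [SimpleGraph.mem_neighborFinset] at hx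
      by_cases hxu : x = u
      · simp [hxu]
      · by_cases hux : G.Adj u x
        · simp [hin x hx hux]
        · simp [hout x hx hxu hux]
  · left
    intro x hx
    rw [SimpleGraph.mem_neighborFinset] at hx
    by_cases hxu : x = u
    · simp [hxu]
    · by_cases hux : G.Adj u x
      · exact absurd (hin x hx hux ▸ hx) hadj
      · simp [hout x hx hxu hux]

theorem Q_deg (hB : Bad G) {u v : V} (hv : v ∈ QQ G u) : G.degree v ≤ 2 + (R1 G u).card := by
  rw [← G.card_neighborFinset_eq_degree]
  rcases Q_nb hB hv with h | ⟨w, -, -, -, -, h⟩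
  · refine (card_le_card h).trans ?_
    refine (card_insert_le _ _).trans ?_
    omega
  · refine (card_le_card h).trans ?_
    refine (card_insert_le _ _).trans ?_
    have := card_insert_le w (R1 G u)
    omega

theorem Q_deg' (hB : Bad G) {u v : V} (hv : v ∈ QQ G u) (hd : G.degree v = 2 + (R1 G u).card) :
    ∃ w, ∀ w', G.Adj u w' → G.degree w' = G.degree v → w' = v ∨ w' = w := by
  rcases Q_nb hB hv with h | ⟨w, -, -, -, h, -⟩
  · exfalso
    have h1 := card_le_card h
    rw [G.card_neighborFinset_eq_degree] at h1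
    have h2 := card_insert_le u (R1 G u)
    omega
  · exact ⟨w, h⟩

/-- the `Q` vertices of top degree -/
def Q2 (G : SimpleGraph V) [DecidableRel G.Adj] (u : V) : Finset V :=
  (QQ G u).filter (fun v => G.degree v = 2 + (R1 G u).card)

theorem card_Q2 (hB : Bad G) (u : V) : (Q2 G u).card ≤ 2 := by
  rcases (Q2 G u).eq_empty_or_nonempty with h | ⟨v, hv⟩
  · simp [h]
  · have hv' := hv
    rw [Q2, mem_filter] at hv'
    obtain ⟨hvQ, hvd⟩ := hv'
    obtain ⟨w, hw⟩ := Q_deg' hB hvQ hvd
    have hsub : Q2 G u ⊆ {v, w} := by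
      intro x hx
      rw [Q2, mem_filter] at hx
      have hx1 := (mem_QQ G).1 hx.1
      rcases hw x hx1.1 (by rw [hx.2, hvd]) with h | h
      · simp [h]
      · simp [h]
    exact (card_le_card hsub).trans (card_le_two)

theorem sum_Q (hB : Bad G) (u : V) :
    ∑ v ∈ QQ G u, (G.degree v : ℤ) ≤ (QQ G u).card * (1 + ((R1 G u).card : ℤ)) + (Q2 G u).card := by
  have h1 : ∀ v ∈ QQ G u, (G.degree v : ℤ) ≤ (1 + ((R1 G u).card : ℤ)) +
      (if G.degree v = 2 + (R1 G u).card then 1 else 0) := by
    intro v hv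
    have h2 := Q_deg hB hv
    split_ifs with h
    · rw [h]; push_cast; linarith
    · have : G.degree v ≤ 1 + (R1 G u).card := by omega
      have : (G.degree v : ℤ) ≤ 1 + (R1 G u).card := by exact_mod_cast this
      linarith
  refine (sum_le_sum h1).trans ?_
  rw [sum_add_distrib, sum_const, nsmul_eq_mul]
  apply le_of_eq
  congr 1
  rw [Q2, Finset.card_filter]
  push_cast
  rfl

theorem R0_nb (hB : Bad G) {u y : V} (hy : y ∈ R0 G u) :
    ∃ w, G.Adj u w ∧ G.degree w = G.degree y ∧ ∀ x, G.Adj u x → G.Adj y x → x = w := by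
  rw [mem_R0] at hy
  obtain ⟨⟨hyu, hn⟩, w, huw, hd⟩ := hy
  refine ⟨w, huw, hd, ?_⟩
  intro x hux hyx
  by_contra hne
  -- w - u - x - y
  exact hB w u x y huw.symm hux hyx.symm (Ne.symm hne) (Ne.symm hyu) (fun h => hn (h ▸ huw)) hd

theorem R0_deg (hB : Bad G) {u y : V} (hy : y ∈ R0 G u) :
    G.degree y ≤ (R1 G u).card + (R0 G u).card := by
  obtain ⟨w, huw, hd, hx⟩ := R0_nb hB hy
  have hsub : G.neighborFinset y ⊆ insert w ((R1 G u ∪ R0 G u).erase y) := by
    intro x hxy
    rw [SimpleGraph.mem_neighborFinset] at hxy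
    by_cases hux : G.Adj u x
    · simp [hx x hux hxy]
    · have hxu : x ≠ u := by
        rintro rfl
        exact ((mem_R0 G).1 hy).1.2 hxy.symm
      rw [mem_insert, mem_erase, mem_union, mem_R1, mem_R0]
      right
      refine ⟨hxy.ne', ?_⟩
      by_cases h : ∀ w, G.Adj u w → G.degree w ≠ G.degree x
      · left; exact ⟨⟨hxu, hux⟩, h⟩
      · right
        push Not at h
        exact ⟨⟨hxu, hux⟩, h⟩
  rw [← G.card_neighborFinset_eq_degree]
  refine (card_le_card hsub).trans ?_
  refine (card_insert_le _ _).trans ?_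
  have hmem : y ∈ R1 G u ∪ R0 G u := mem_union_right _ hy
  rw [card_erase_of_mem hmem]
  have h1 : 0 < (R1 G u ∪ R0 G u).card := card_pos.2 ⟨y, hmem⟩
  have h2 := card_union_le (R1 G u) (R0 G u)
  omega

theorem sum_R0 (hB : Bad G) (u : V) :
    ∑ v ∈ R0 G u, (G.degree v : ℤ) ≤ (R0 G u).card * (((R1 G u).card : ℤ) + (R0 G u).card) := by
  have h1 : ∀ v ∈ R0 G u, (G.degree v : ℤ) ≤ (((R1 G u).card : ℤ) + (R0 G u).card) := by
    intro v hv
    exact_mod_cast R0_deg hB hv
  refine (sum_le_sum h1).trans ?_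
  rw [sum_const, nsmul_eq_mul]

end Pool.Agent.U542.EqDeg
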