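import Pool.Agent.U542.EqDeg.Basic

/-!
# Equal degrees and paths of length three: the main theorem
-/

set_option autoImplicit false

namespace Pool.Agent.U542.EqDeg

open Finset

variable {V : Type*} [Fintype V] [DecidableEq V] {G : SimpleGraph V} [DecidableRel G.Adj]

theorem P_nb (hB : Bad G) {u v x : V} (hv : v ∈ PP G u) (hx : G.Adj v x) (hux : G.Adj u x) :
    x ∈ PP G u := by
  rw [mem_PP] at hv ⊢
  refine ⟨hux, ?_⟩
  intro w hw hd
  by_contra hne
  by_cases hwv : w = v
  · subst hwv
    exact hne (hv.2 x hux hd.symm).symm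
  · exact hB w u v x hw.symm hv.1 hx hwv hux.ne hne hd

theorem P_inj (G : SimpleGraph V) [DecidableRel G.Adj] (u : V) :
    ∀ a ∈ PP G u, ∀ b ∈ PP G u, G.degree a = G.degree b → a = b := by
  intro a ha b hb h
  exact ((mem_PP G).1 hb).2 a ((mem_PP G).1 ha).1 h

/-- the sum over `P` and `R1` if `R1` is nonempty -/
theorem sum_PR (u : V) (D : ℤ) (hP : ∀ v ∈ PP G u, (G.degree v : ℤ) ≤ D)
    (hR : ∀ v ∈ R1 G u, (G.degree v : ℤ) ≤ D) (hne : (R1 G u).Nonempty) :
    2 * (∑ v ∈ PP G u, (G.degree v : ℤ) + ∑ v ∈ R1 G u, (G.degree v : ℤ)) ≤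
      2 * ((PP G u).card + 1 : ℤ) * D - ((PP G u).card + 1 : ℤ) * (PP G u).card +
        2 * ((R1 G u).card - 1 : ℤ) * D := by
  obtain ⟨y, hy⟩ := hne
  have hyP : y ∉ PP G u := by
    intro h
    exact ((mem_R1 G).1 hy).1.2 ((mem_PP G).1 h).1
  have h1 := sum_inj_le (fun v => G.degree v) D (insert y (PP G u)) (by
    intro a ha b hb h
    rw [mem_insert] at ha hb
    rcases ha with rfl | ha
    · rcases hb with rfl | hb
      · rfl
      · exact absurd h.symm (((mem_R1 G).1 hy).2 b ((mem_PP G).1 hb).1)
    · rcases hb with rfl | hb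
      · exact absurd h (((mem_R1 G).1 hy).2 a ((mem_PP G).1 ha).1)
      · exact P_inj G u a ha b hb h) (by
    intro a ha
    rw [mem_insert] at ha
    rcases ha with rfl | ha
    · exact hR _ hy
    · exact hP a ha)
  rw [sum_insert hyP, card_insert_of_notMem hyP] at h1
  have h2 := Finset.add_sum_erase (R1 G u) (fun a => (G.degree a : ℤ)) hy
  have h3 : ∑ a ∈ (R1 G u).erase y, (G.degree a : ℤ) ≤ ((R1 G u).card - 1 : ℤ) * D := by
    refine (sum_le_sum (fun a ha => hR a (mem_of_mem_erase ha))).trans ?_
    rw [sum_const, nsmul_eq_mul, card_erase_of_mem hy]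
    have : 1 ≤ (R1 G u).card := card_pos.2 ⟨y, hy⟩
    push_cast [this]
    exact le_rfl
  push_cast at h1
  linarith

theorem case_R1 (n : ℕ) (u : V) (hB : Bad G) (hV : Fintype.card V = 2 * n + 1)
    (hS : (2 * n ^ 2 + 2 * n + 2 : ℤ) ≤ ∑ v, (G.degree v : ℤ)) (hmax : ∀ v, G.degree v ≤ G.degree u)
    (hD : n + 1 ≤ G.degree u) (hne : (R1 G u).Nonempty) : False := by
  have hPQ : ((PP G u).card : ℤ) + (QQ G u).card = G.degree u := by exact_mod_cast card_PQ G u
  have hR : ((R1 G u).card : ℤ) + (R0 G u).card + G.degree u = 2 * n := by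
    have := card_R G u
    rw [hV] at this
    have : (R1 G u).card + (R0 G u).card + G.degree u = 2 * n := by omega
    exact_mod_cast this
  have h0 := sum_split G u (fun v => (G.degree v : ℤ))
  have hQ := sum_Q hB u
  have hR0 := sum_R0 hB u
  have hQ2 : ((Q2 G u).card : ℤ) ≤ 2 := by exact_mod_cast card_Q2 hB u
  have hmax' : ∀ v, (G.degree v : ℤ) ≤ G.degree u := fun v => by exact_mod_cast hmax v
  have hPR := sum_PR (G := G) u (G.degree u) (fun v _ => hmax' v) (fun v _ => hmax' v) hne
  have hD' : (n : ℤ) + 1 ≤ G.degree u := by exact_mod_cast hD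
  have hr1 : (1 : ℤ) ≤ (R1 G u).card := by exact_mod_cast card_pos.2 hne
  have hr0 : (0 : ℤ) ≤ (R0 G u).card := by positivity
  have hp0 : (0 : ℤ) ≤ (PP G u).card := by positivity
  have hq0 : (0 : ℤ) ≤ (QQ G u).card := by positivity
  by_cases hk : G.degree u = n + 1
  · -- the tight case
    have hkz : (G.degree u : ℤ) = n + 1 := by exact_mod_cast hk
    have hc2 : 0 < (Q2 G u).card := by
      by_contra hcon
      have hc0 : ((Q2 G u).card : ℤ) = 0 := by
        have : (Q2 G u).card = 0 := by omega
        exact_mod_cast this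
      have e1 : (0 : ℤ) ≤ (R0 G u).card * (2 * (G.degree u : ℤ) - (PP G u).card -
          ((R1 G u).card + (R0 G u).card)) := by
        apply mul_nonneg hr0
        linarith
      have e2 : (0 : ℤ) ≤ ((PP G u).card : ℤ) * ((PP G u).card - 1) := by
        rcases Nat.eq_zero_or_pos (PP G u).card with h | h
        · rw [h]; simp
        · have : (1 : ℤ) ≤ (PP G u).card := by exact_mod_cast h
          exact mul_nonneg hp0 (by linarith)
      generalize ((PP G u).card : ℤ) = p at *
      generalize ((QQ G u).card : ℤ) = q at *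
      generalize ((R1 G u).card : ℤ) = r1 at *
      generalize ((R0 G u).card : ℤ) = r0 at *
      have hq : q = n + 1 - p := by linarith
      have hr : r1 = n - 1 - r0 := by linarith
      subst hq hr
      rw [hkz] at *
      nlinarith
    obtain ⟨v, hv⟩ := card_pos.1 hc2
    rw [Q2, mem_filter] at hv
    have hvu : G.Adj u v := ((mem_QQ G).1 hv.1).1
    have hvd : (G.degree v : ℤ) = 2 + (R1 G u).card := by exact_mod_cast hv.2
    by_cases hr : (R0 G u).card = 0
    · -- then the degree of `v` is maximal
      have hr0' : ((R0 G u).card : ℤ) = 0 := by exact_mod_cast hr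
      have hvD : (G.degree v : ℤ) = G.degree u := by linarith
      have hvD' : G.degree v = G.degree u := by exact_mod_cast hvD
      have hP1 : ∀ x ∈ PP G u, (G.degree x : ℤ) ≤ (G.degree u : ℤ) - 1 := by
        intro x hx
        have h1 : G.degree x ≠ G.degree u := by
          intro h
          have h2 := ((mem_PP G).1 hx).2 v hvu (by rw [hvD', h])
          subst h2
          obtain ⟨-, w, hw1, hw2, hw3⟩ := (mem_QQ G).1 hv.1
          exact hw3 (((mem_PP G).1 hx).2 w hw1 hw2)
        have h2 := hmax x
        have : G.degree x + 1 ≤ G.degree u := by omega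
        have : (G.degree x : ℤ) + 1 ≤ G.degree u := by exact_mod_cast this
        linarith
      have hR1 : ∀ x ∈ R1 G u, (G.degree x : ℤ) ≤ (G.degree u : ℤ) - 1 := by
        intro x hx
        have h1 : G.degree x ≠ G.degree u := by
          intro h
          exact ((mem_R1 G).1 hx).2 v hvu (by rw [hvD', h])
        have h2 := hmax x
        have : G.degree x + 1 ≤ G.degree u := by omega
        have : (G.degree x : ℤ) + 1 ≤ G.degree u := by exact_mod_cast this
        linarith
      have hPR' := sum_PR (G := G) u _ hP1 hR1 hne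
      have e2 : (0 : ℤ) ≤ ((PP G u).card : ℤ) * ((PP G u).card - 1) := by
        rcases Nat.eq_zero_or_pos (PP G u).card with h | h
        · rw [h]; simp
        · have : (1 : ℤ) ≤ (PP G u).card := by exact_mod_cast h
          exact mul_nonneg hp0 (by linarith)
      clear hPR
      generalize ((PP G u).card : ℤ) = p at *
      generalize ((QQ G u).card : ℤ) = q at *
      generalize ((R1 G u).card : ℤ) = r1 at *
      generalize ((R0 G u).card : ℤ) = r0 at *
      have hq : q = n + 1 - p := by linarith
      have hr : r1 = n - 1 - r0 := by linarith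
      subst hq hr hr0'
      rw [hkz] at *
      nlinarith
    · have hr0' : (1 : ℤ) ≤ (R0 G u).card := by
        have : 1 ≤ (R0 G u).card := by omega
        exact_mod_cast this
      have e1 : (2 : ℤ) ≤ (R0 G u).card * (2 * (G.degree u : ℤ) - (PP G u).card -
          ((R1 G u).card + (R0 G u).card)) := by
        have h1 : (2 : ℤ) ≤ (2 * (G.degree u : ℤ) - (PP G u).card -
          ((R1 G u).card + (R0 G u).card)) := by linarith
        nlinarith
      have e2 : (0 : ℤ) ≤ ((PP G u).card : ℤ) * ((PP G u).card - 1) := by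
        rcases Nat.eq_zero_or_pos (PP G u).card with h | h
        · rw [h]; simp
        · have : (1 : ℤ) ≤ (PP G u).card := by exact_mod_cast h
          exact mul_nonneg hp0 (by linarith)
      generalize ((PP G u).card : ℤ) = p at *
      generalize ((QQ G u).card : ℤ) = q at *
      generalize ((R1 G u).card : ℤ) = r1 at *
      generalize ((R0 G u).card : ℤ) = r0 at *
      have hq : q = n + 1 - p := by linarith
      have hr : r1 = n - 1 - r0 := by linarith
      subst hq hr
      rw [hkz] at *
      nlinarith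
  · have hk2 : (n : ℤ) + 2 ≤ G.degree u := by
      have : n + 2 ≤ G.degree u := by omega
      exact_mod_cast this
    have e1 : (0 : ℤ) ≤ (R0 G u).card * (2 * (G.degree u : ℤ) - (PP G u).card -
        ((R1 G u).card + (R0 G u).card)) := by
      apply mul_nonneg hr0
      linarith
    have e2 : (0 : ℤ) ≤ (((PP G u).card : ℤ) - (2 * ((G.degree u : ℤ) - n) - 1)) *
        (((PP G u).card : ℤ) - (2 * ((G.degree u : ℤ) - n) - 2)) := by
      rcases le_or_gt (((PP G u).card : ℤ)) (2 * ((G.degree u : ℤ) - n) - 2) with h | h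
      · exact mul_nonneg_of_nonpos_of_nonpos (by linarith) (by linarith)
      · have h' : (2 * ((G.degree u : ℤ) - n) - 1) ≤ ((PP G u).card : ℤ) := by linarith [Int.add_one_le_iff.2 h]
        exact mul_nonneg (by linarith) (by linarith)
    generalize ((PP G u).card : ℤ) = p at *
    generalize ((QQ G u).card : ℤ) = q at *
    generalize ((R1 G u).card : ℤ) = r1 at *
    generalize ((R0 G u).card : ℤ) = r0 at *
    generalize (G.degree u : ℤ) = D at *
    have hq : q = D - p := by linarith
    have hr : r1 = 2 * n - D - r0 := by linarith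
    subst hq hr
    nlinarith

/-- neighbours of a vertex of `P` without neighbours in `R0`, if `R1` is empty -/
theorem P0_nb (hB : Bad G) {u v : V} (hR1 : R1 G u = ∅) (hv : v ∈ PP G u)
    (h0 : ∀ y ∈ R0 G u, ¬ G.Adj v y) : G.neighborFinset v ⊆ insert u ((PP G u).erase v) := by
  intro x hx
  rw [SimpleGraph.mem_neighborFinset] at hx
  by_cases hxu : x = u
  · simp [hxu]
  · by_cases hux : G.Adj u x
    · rw [mem_insert, mem_erase]
      right
      exact ⟨hx.ne', P_nb hB hv hx hux⟩
    · exfalso
      by_cases h : ∀ w, G.Adj u w → G.degree w ≠ G.degree x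
      · have : x ∈ R1 G u := (mem_R1 G).2 ⟨⟨hxu, hux⟩, h⟩
        rw [hR1] at this
        simp at this
      · push Not at h
        exact h0 x ((mem_R0 G).2 ⟨⟨hxu, hux⟩, h⟩) hx

theorem card_P0 {u v : V} (hv : v ∈ PP G u) : (insert u ((PP G u).erase v)).card = (PP G u).card := by
  rw [card_insert_of_notMem, card_erase_of_mem hv]
  · have : 0 < (PP G u).card := card_pos.2 ⟨v, hv⟩
    omega
  · intro h
    have := ((mem_PP G).1 (mem_of_mem_erase h)).1
    exact G.loopless.irrefl u this

theorem P0_deg (hB : Bad G) {u v : V} (hR1 : R1 G u = ∅) (hv : v ∈ PP G u)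
    (h0 : ∀ y ∈ R0 G u, ¬ G.Adj v y) : G.degree v ≤ (PP G u).card := by
  rw [← G.card_neighborFinset_eq_degree, ← card_P0 hv]
  exact card_le_card (P0_nb hB hR1 hv h0)

theorem case_R0 (n : ℕ) (u : V) (hn : 2 ≤ n) (hB : Bad G) (hV : Fintype.card V = 2 * n + 1)
    (hS : (2 * n ^ 2 + 2 * n + 2 : ℤ) ≤ ∑ v, (G.degree v : ℤ))
    (hD : n + 1 ≤ G.degree u) (hR1 : R1 G u = ∅) : False := by
  classical
  have hPQ : ((PP G u).card : ℤ) + (QQ G u).card = G.degree u := by exact_mod_cast card_PQ G u
  have hr1 : (R1 G u).card = 0 := by rw [hR1]; rfl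
  have hR : ((R0 G u).card : ℤ) + G.degree u = 2 * n := by
    have := card_R G u
    rw [hV, hr1] at this
    have : (R0 G u).card + G.degree u = 2 * n := by omega
    exact_mod_cast this
  have h0 := sum_split G u (fun v => (G.degree v : ℤ))
  have hQ := sum_Q hB u
  have hR0 := sum_R0 hB u
  have hQ2 : ((Q2 G u).card : ℤ) ≤ 2 := by exact_mod_cast card_Q2 hB u
  rw [hr1] at hQ hR0
  simp only [hR1, sum_empty] at h0
  have hD' : (n : ℤ) + 1 ≤ G.degree u := by exact_mod_cast hD
  have hn' : (2 : ℤ) ≤ n := by exact_mod_cast hn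
  have hr0 : (0 : ℤ) ≤ (R0 G u).card := by positivity
  have hp0 : (0 : ℤ) ≤ (PP G u).card := by positivity
  have hq0 : (0 : ℤ) ≤ (QQ G u).card := by positivity
  by_cases hr : (R0 G u).card = 0
  · -- `u` is adjacent to all other vertices
    have hRe : R0 G u = ∅ := card_eq_zero.1 hr
    have hno : ∀ v : V, ∀ y ∈ R0 G u, ¬ G.Adj v y := by
      intro v y hy
      rw [hRe] at hy
      simp at hy
    have hdeg : ∀ v ∈ PP G u, G.degree v ≤ (PP G u).card := fun v hv => P0_deg hB hR1 hv (hno v)
    have hp1 : (PP G u).card ≤ 1 := by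
      by_contra hcon
      push Not at hcon
      -- the degrees are exactly 1, …, p
      have himg : (PP G u).image (fun v => G.degree v) = Finset.Icc 1 (PP G u).card := by
        apply Finset.eq_of_subset_of_card_le
        · intro d hd
          rw [mem_image] at hd
          obtain ⟨v, hv, rfl⟩ := hd
          rw [mem_Icc]
          refine ⟨?_, hdeg v hv⟩
          rw [Nat.succ_le_iff, G.degree_pos_iff_exists_adj]
          exact ⟨u, ((mem_PP G).1 hv).1.symm⟩
        · rw [Nat.card_Icc, card_image_of_injOn]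
          · omega
          · intro a ha b hb h
            exact P_inj G u a ha b hb h
      have h1 : (PP G u).card ∈ (PP G u).image (fun v => G.degree v) := by
        rw [himg, mem_Icc]; omega
      have h2 : 1 ∈ (PP G u).image (fun v => G.degree v) := by
        rw [himg, mem_Icc]; omega
      rw [mem_image] at h1 h2
      obtain ⟨v, hv, hvd⟩ := h1
      obtain ⟨w, hw, hwd⟩ := h2
      have hvw : w ≠ v := by
        rintro rfl
        omega
      have heq : G.neighborFinset v = insert u ((PP G u).erase v) := by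
        apply Finset.eq_of_subset_of_card_le (P0_nb hB hR1 hv (hno v))
        rw [card_P0 hv, G.card_neighborFinset_eq_degree, hvd]
      have hadj : G.Adj v w := by
        rw [← SimpleGraph.mem_neighborFinset, heq, mem_insert, mem_erase]
        exact Or.inr ⟨hvw, hw⟩
      have hsub : ({u, v} : Finset V) ⊆ G.neighborFinset w := by
        intro x hx
        rw [mem_insert, mem_singleton] at hx
        rw [SimpleGraph.mem_neighborFinset]
        rcases hx with rfl | rfl
        · exact ((mem_PP G).1 hw).1.symm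
        · exact hadj.symm
      have h3 := card_le_card hsub
      rw [G.card_neighborFinset_eq_degree, hwd, card_pair] at h3
      · omega
      · rintro rfl
        exact G.loopless.irrefl _ ((mem_PP G).1 hv).1
    have hsP : ∑ v ∈ PP G u, (G.degree v : ℤ) ≤ 1 := by
      have : ∑ v ∈ PP G u, (G.degree v : ℤ) ≤ ∑ v ∈ PP G u, (1 : ℤ) := by
        apply sum_le_sum
        intro v hv
        have := hdeg v hv
        have : G.degree v ≤ 1 := by omega
        exact_mod_cast this
      refine this.trans ?_
      rw [sum_const, nsmul_eq_mul, mul_one]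
      exact_mod_cast hp1
    have hr0' : ((R0 G u).card : ℤ) = 0 := by exact_mod_cast hr
    rw [hr0'] at hR hR0
    push_cast at hQ hR0
    nlinarith
  · have hr0' : (1 : ℤ) ≤ (R0 G u).card := by
      have : 1 ≤ (R0 G u).card := by omega
      exact_mod_cast this
    set A := (PP G u).filter (fun v => ∀ y ∈ R0 G u, ¬ G.Adj v y) with hA
    set B := (PP G u).filter (fun v => ¬ ∀ y ∈ R0 G u, ¬ G.Adj v y) with hBdef
    have hAB : (A.card : ℤ) + B.card = (PP G u).card := by
      have := Finset.card_filter_add_card_filter_not (s := PP G u)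
        (fun v => ∀ y ∈ R0 G u, ¬ G.Adj v y)
      exact_mod_cast this
    have hsAB : ∑ v ∈ A, (G.degree v : ℤ) + ∑ v ∈ B, (G.degree v : ℤ) =
        ∑ v ∈ PP G u, (G.degree v : ℤ) := Finset.sum_filter_add_sum_filter_not _ _ _
    have hsA := sum_inj_le (fun v => G.degree v) ((PP G u).card : ℤ) A
      (fun a ha b hb h => P_inj G u a (mem_filter.1 ha).1 b (mem_filter.1 hb).1 h)
      (fun a ha => by exact_mod_cast P0_deg hB hR1 (mem_filter.1 ha).1 (mem_filter.1 ha).2)
    have hsB := sum_inj_le (fun v => G.degree v) ((R0 G u).card : ℤ) B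
      (fun a ha b hb h => P_inj G u a (mem_filter.1 ha).1 b (mem_filter.1 hb).1 h)
      (fun a ha => by
        obtain ⟨ha1, ha2⟩ := mem_filter.1 ha
        push Not at ha2
        obtain ⟨y, hy, hay⟩ := ha2
        obtain ⟨w, hw1, hw2, hw3⟩ := R0_nb hB hy
        have h1 : a = w := hw3 a ((mem_PP G).1 ha1).1 hay.symm
        have h2 := R0_deg hB hy
        rw [hr1, zero_add] at h2
        rw [h1, hw2]
        exact_mod_cast h2)
    have ha0 : (0 : ℤ) ≤ A.card := by positivity
    have hb0 : (0 : ℤ) ≤ B.card := by positivity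
    have hD2 : (R0 G u).card ≤ n - 1 := by
      have : (R0 G u).card + G.degree u = 2 * n := by exact_mod_cast hR
      omega
    have hD3 : ((R0 G u).card : ℤ) ≤ n - 1 := by
      have : (R0 G u).card + 1 ≤ n := by omega
      have : ((R0 G u).card : ℤ) + 1 ≤ n := by exact_mod_cast this
      linarith
    push_cast at hQ hR0
    have e1 : (0 : ℤ) ≤ (((R0 G u).card : ℤ) - 1) * ((n : ℤ) - 1 - (R0 G u).card) :=
      mul_nonneg (by linarith) (by linarith)
    have e2 : (0 : ℤ) ≤ (2 * (B.card : ℤ) - (R0 G u).card) ^ 2 := sq_nonneg _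
    have e3 : ((PP G u).card : ℤ) * ((PP G u).card - 1) ≤ (G.degree u : ℤ) * (G.degree u - 1) := by
      have h1 : ((PP G u).card : ℤ) ≤ G.degree u := by linarith
      nlinarith
    generalize (A.card : ℤ) = a at *
    generalize (B.card : ℤ) = s at *
    generalize ((PP G u).card : ℤ) = p at *
    generalize ((QQ G u).card : ℤ) = q at *
    generalize ((R0 G u).card : ℤ) = r at *
    generalize (G.degree u : ℤ) = D at *
    have hq : q = D - p := by linarith
    have hDr : D = 2 * n - r := by linarith
    have hp : p = a + s := by linarith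
    subst hq hp hDr
    have e4 : (0 : ℤ) ≤ (r - 1) * (n : ℤ) := mul_nonneg (by linarith) (by linarith)
    nlinarith

theorem main (n : ℕ) (hn : 2 ≤ n) (hV : Fintype.card V = 2 * n + 1)
    (hE : n ^ 2 + n + 1 ≤ G.edgeFinset.card) (hB : Bad G) : False := by
  have hS0 := G.sum_degrees_eq_twice_card_edges
  have hS : (2 * n ^ 2 + 2 * n + 2 : ℤ) ≤ ∑ v, (G.degree v : ℤ) := by
    have : ((∑ v, G.degree v : ℕ) : ℤ) = 2 * G.edgeFinset.card := by
      rw [hS0]; push_cast; ring
    push_cast at this
    rw [this]
    have : ((n ^ 2 + n + 1 : ℕ) : ℤ) ≤ G.edgeFinset.card := by exact_mod_cast hE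
    push_cast at this
    linarith
  have hne : (univ : Finset V).Nonempty := by
    rw [← card_pos, card_univ, hV]; omega
  obtain ⟨u, -, hu⟩ := Finset.exists_max_image univ (fun v => G.degree v) hne
  have hmax : ∀ v, G.degree v ≤ G.degree u := fun v => hu v (mem_univ v)
  have hD : n + 1 ≤ G.degree u := by
    by_contra hcon
    push Not at hcon
    have h1 : ∑ v, (G.degree v : ℤ) ≤ ∑ _v : V, (n : ℤ) := by
      apply sum_le_sum
      intro v _
      have := hmax v
      have : G.degree v ≤ n := by omega
      exact_mod_cast this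
    rw [sum_const, card_univ, hV, nsmul_eq_mul] at h1
    push_cast at h1
    nlinarith
  rcases (R1 G u).eq_empty_or_nonempty with h | h
  · exact case_R0 n u hn hB hV hS hD h
  · exact case_R1 n u hB hV hS hmax hD h

end Pool.Agent.U542.EqDeg
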